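import Mathlib

/-!
# Siegel's theorem, part A: the inequality of Estermann
-/

set_option autoImplicit false

namespace Pool.Agent.SIE

open Complex Metric Filter Finset
open scoped ComplexOrder Nat Topology

theorem sa_inv (n : ℕ) : iteratedDeriv n (fun s : ℂ => (s - 1)⁻¹) 2 = (-1) ^ n * (n ! : ℂ) := by
  have h := congrFun (iteratedDeriv_comp_sub_const n (Inv.inv : ℂ → ℂ) (1 : ℂ)) 2
  have h2 : (2 : ℂ) - 1 = 1 := by norm_num
  rw [h, iteratedDeriv_eq_iterate, iter_deriv_inv, h2, one_zpow, mul_one]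

theorem sa_deriv {a : ℕ → ℂ} {G : ℂ → ℂ} (hG : Differentiable ℂ G) {lam : ℂ}
    (hGF : ∀ s : ℂ, 1 < s.re → G s = LSeries a s - lam * (s - 1)⁻¹) (n : ℕ) :
    iteratedDeriv n G 2 = iteratedDeriv n (LSeries a) 2 - lam * ((-1) ^ n * (n ! : ℂ)) := by
  have h1 : LSeries a =ᶠ[𝓝 (2 : ℂ)] G + fun s => lam * (s - 1)⁻¹ := by
    have : {s : ℂ | 1 < s.re} ∈ 𝓝 (2 : ℂ) :=
      (isOpen_lt continuous_const Complex.continuous_re).mem_nhds (by simp)
    filter_upwards [this] with w hw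
    have hw : 1 < w.re := hw
    rw [Pi.add_apply, hGF w hw]
    ring
  have hc : ContDiffAt ℂ n (fun s : ℂ => (s - 1)⁻¹) 2 := by
    refine ContDiffAt.inv (by fun_prop) ?_
    norm_num
  have hG' : ContDiffAt ℂ n G 2 := hG.contDiff.contDiffAt
  rw [h1.iteratedDeriv_eq n, iteratedDeriv_add hG' (contDiffAt_const.mul hc),
    iteratedDeriv_const_mul _ hc, sa_inv]
  ring

theorem sa_nonneg {a : ℕ → ℂ} (ha : 0 ≤ a) (habs : LSeries.abscissaOfAbsConv a < ((2 : ℝ) : EReal)) (n : ℕ) :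
    0 ≤ ((-1) ^ n * iteratedDeriv n (LSeries a) 2 : ℂ) := by
  have h := LSeries.iteratedDeriv_alternating ha (x := 2) habs n
  simpa using h

theorem sa_zero {a : ℕ → ℂ} (ha : 0 ≤ a) (ha1 : 1 ≤ a 1)
    (habs : LSeries.abscissaOfAbsConv a < ((2 : ℝ) : EReal)) : 1 ≤ (LSeries a 2).re := by
  have hs : LSeriesSummable a 2 := LSeriesSummable_of_abscissaOfAbsConv_lt_re (by simpa using habs)
  have h1 : ∀ n, 0 ≤ (LSeries.term a 2 n).re := by
    intro n
    have h := LSeries.term_nonneg (ha n) (2 : ℝ)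
    have h2 := (Complex.le_def.1 h).1
    simpa using h2
  have h2 : HasSum (fun n => (LSeries.term a 2 n).re) (LSeries a 2).re :=
    Complex.hasSum_re hs.hasSum
  have h3 := le_hasSum h2 1 (fun n _ => h1 n)
  refine le_trans ?_ h3
  rw [LSeries.term_of_ne_zero one_ne_zero]
  simp only [Nat.cast_one, one_cpow, div_one]
  exact (Complex.le_def.1 ha1).1

/-- Estermann's inequality -/
theorem sa_main {a : ℕ → ℂ} (ha : 0 ≤ a) (ha1 : 1 ≤ a 1)
    (habs : LSeries.abscissaOfAbsConv a < ((2 : ℝ) : EReal)) {G : ℂ → ℂ} (hG : Differentiable ℂ G) {lam : ℂ}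
    (hGF : ∀ s : ℂ, 1 < s.re → G s = LSeries a s - lam * (s - 1)⁻¹) {M : ℝ}
    (hM : ∀ s ∈ sphere (2 : ℂ) (4 / 3), ‖G s‖ ≤ M) {β : ℝ} (h1 : 3 / 4 ≤ β) (h2 : β < 1) (N : ℕ)
    (hN : 1 ≤ N) :
    1 - lam.re * (((2 - β) ^ N - 1) / (1 - β)) - 16 * M * (15 / 16) ^ N ≤ (G β).re := by
  have hM0 : 0 ≤ M := by
    refine (norm_nonneg _).trans (hM (2 + 4 / 3) ?_)
    rw [mem_sphere, dist_eq_norm]
    norm_num
  set y : ℝ := 2 - β with hy
  have hy1 : 1 < y := by rw [hy]; linarith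
  have hy2 : y ≤ 5 / 4 := by rw [hy]; linarith
  -- the coefficients
  set g : ℕ → ℝ := fun n => ((n ! : ℂ)⁻¹ * ((-1) ^ n * iteratedDeriv n G 2)).re with hg
  have hsum : HasSum (fun n => g n * y ^ n) (G β).re := by
    have h3 := hasSum_taylorSeries_of_entire hG 2 (β : ℂ)
    have h4 := Complex.hasSum_re h3
    have h5 : (fun n => g n * y ^ n) = fun n : ℕ =>
        ((n ! : ℂ)⁻¹ • ((β : ℂ) - 2) ^ n • iteratedDeriv n G 2).re := by
      funext n
      have h6 : ((β : ℂ) - 2) ^ n = (-1) ^ n * ((y ^ n : ℝ) : ℂ) := by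
        rw [hy]
        push_cast
        rw [← mul_pow]
        congr 1
        ring
      have h7 : ((n ! : ℂ)⁻¹ • ((β : ℂ) - 2) ^ n • iteratedDeriv n G 2) =
          ((y ^ n : ℝ) : ℂ) * ((n ! : ℂ)⁻¹ * ((-1) ^ n * iteratedDeriv n G 2)) := by
        rw [smul_eq_mul, smul_eq_mul, h6]
        ring
      rw [h7, Complex.re_ofReal_mul, mul_comm]
    rw [h5]
    exact h4
  have hfac : ∀ n : ℕ, (n ! : ℂ) ≠ 0 := fun n => by exact_mod_cast n.factorial_ne_zero
  -- the values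
  have hval : ∀ n, g n = ((n ! : ℂ)⁻¹ * ((-1) ^ n * iteratedDeriv n (LSeries a) 2)).re - lam.re := by
    intro n
    rw [hg]
    simp only
    rw [sa_deriv hG hGF n, ← Complex.sub_re]
    congr 1
    have h8 : ((-1 : ℂ) ^ n) * (-1) ^ n = 1 := by
      rw [← mul_pow]
      norm_num
    have h9 : (n ! : ℂ)⁻¹ * (n ! : ℂ) = 1 := inv_mul_cancel₀ (hfac n)
    linear_combination (-lam * (n ! : ℂ)⁻¹ * (n ! : ℂ)) * h8 - lam * h9
  have hge : ∀ n, -lam.re ≤ g n := by
    intro n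
    rw [hval n]
    have h8 := sa_nonneg ha habs n
    have h9 : 0 ≤ ((n ! : ℂ)⁻¹ * ((-1) ^ n * iteratedDeriv n (LSeries a) 2)).re := by
      have h10 : (n ! : ℂ)⁻¹ = (((n ! : ℝ)⁻¹ : ℝ) : ℂ) := by push_cast; rfl
      rw [h10, Complex.re_ofReal_mul]
      exact mul_nonneg (by positivity) (Complex.le_def.1 h8).1
    linarith
  have hge0 : 1 - lam.re ≤ g 0 := by
    rw [hval 0]
    have := sa_zero ha ha1 habs
    simp only [Nat.factorial_zero, Nat.cast_one, inv_one, pow_zero, one_mul, iteratedDeriv_zero]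
    linarith
  have habsg : ∀ n, |g n| ≤ M * (3 / 4) ^ n := by
    intro n
    have h8 := norm_iteratedDeriv_le_of_forall_mem_sphere_norm_le n (by norm_num : (0 : ℝ) < 4 / 3)
      hG.diffContOnCl hM
    refine (Complex.abs_re_le_norm _).trans ?_
    rw [norm_mul, norm_mul, norm_pow, norm_neg, norm_one, one_pow, one_mul, norm_inv,
      Complex.norm_natCast]
    have hf : (0 : ℝ) < n ! := by exact_mod_cast n.factorial_pos
    calc ((n ! : ℝ))⁻¹ * ‖iteratedDeriv n G 2‖ ≤ (n ! : ℝ)⁻¹ * (n ! * M / (4 / 3) ^ n) := by gcongr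
      _ = M * (3 / 4) ^ n := by
          have : (3 / 4 : ℝ) ^ n = ((4 / 3 : ℝ) ^ n)⁻¹ := by
            rw [← inv_pow]
            norm_num
          rw [this]
          field_simp
  -- the tail
  have hgeo : Summable fun i : ℕ => M * (15 / 16 : ℝ) ^ N * (15 / 16 : ℝ) ^ i :=
    (summable_geometric_of_lt_one (by norm_num) (by norm_num)).mul_left _
  have htail : |∑' i, g (i + N) * y ^ (i + N)| ≤ 16 * M * (15 / 16) ^ N := by
    have h8 : ∀ i, ‖g (i + N) * y ^ (i + N)‖ ≤ M * (15 / 16 : ℝ) ^ N * (15 / 16 : ℝ) ^ i := by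
      intro i
      rw [norm_mul, norm_pow, Real.norm_eq_abs, Real.norm_eq_abs,
        abs_of_pos (by linarith : (0 : ℝ) < y)]
      calc |g (i + N)| * y ^ (i + N) ≤ (M * (3 / 4) ^ (i + N)) * (5 / 4) ^ (i + N) :=
            mul_le_mul (habsg _) (pow_le_pow_left₀ (by linarith) hy2 _) (by positivity)
              (by positivity)
        _ = M * ((3 / 4) * (5 / 4)) ^ (i + N) := by rw [mul_pow]; ring
        _ = M * (15 / 16 : ℝ) ^ N * (15 / 16 : ℝ) ^ i := by
            norm_num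
            rw [pow_add]
            ring
    have h9 := tsum_of_norm_bounded hgeo.hasSum h8
    rw [Real.norm_eq_abs] at h9
    refine h9.trans (le_of_eq ?_)
    rw [tsum_mul_left, tsum_geometric_of_lt_one (by norm_num) (by norm_num)]
    ring
  have hsplit := hsum.summable.sum_add_tsum_nat_add N
  rw [hsum.tsum_eq] at hsplit
  rw [← hsplit]
  -- the main part
  have hmain : 1 - lam.re * (((2 - β) ^ N - 1) / (1 - β)) ≤ ∑ i ∈ range N, g i * y ^ i := by
    have h8 : ((2 - β) ^ N - 1) / (1 - β) = ∑ i ∈ range N, y ^ i := by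
      rw [geom_sum_eq hy1.ne']
      rw [hy]
      congr 1
      ring
    rw [h8]
    obtain ⟨N', rfl⟩ : ∃ N', N = N' + 1 := ⟨N - 1, by omega⟩
    rw [Finset.sum_range_succ' , Finset.sum_range_succ', mul_add, Finset.mul_sum]
    have h9 : ∀ i ∈ range N', -(lam.re * y ^ (i + 1)) ≤ g (i + 1) * y ^ (i + 1) := by
      intro i _
      have := mul_le_mul_of_nonneg_right (hge (i + 1)) (by positivity : 0 ≤ y ^ (i + 1))
      linarith
    have h10 := Finset.sum_le_sum h9
    rw [Finset.sum_neg_distrib] at h10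
    simp only [pow_zero, mul_one]
    linarith
  have := (abs_le.1 htail).1
  linarith

end Pool.Agent.SIE
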