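import Mathlib

/-!
# Siegel's theorem, part B: the coefficients of `ζ(s) L(s,χ) L(s,ψ) L(s,χψ)` are nonnegative
-/

set_option autoImplicit false

namespace Pool.Agent.SIE

open Complex Finset
open ArithmeticFunction hiding log
open scoped ComplexOrder

variable {m : ℕ}

/-- the Dirichlet character as an arithmetic function -/
noncomputable def ch (χ : DirichletCharacter ℂ m) : ArithmeticFunction ℂ :=
  toArithmeticFunction (χ ·)

/-- the convolution `1 * χ * ψ * χψ` -/
noncomputable def four (χ ψ : DirichletCharacter ℂ m) : ArithmeticFunction ℂ :=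
  χ.zetaMul * (ch ψ * ch (χ * ψ))

theorem four_symm (χ ψ : DirichletCharacter ℂ m) : four χ ψ = four ψ χ := by
  unfold four DirichletCharacter.zetaMul
  rw [mul_comm ψ χ]
  unfold ch
  ring

theorem ch_apply (χ : DirichletCharacter ℂ m) {n : ℕ} (hn : n ≠ 0) : ch χ n = χ (n : ZMod m) := by
  unfold ch toArithmeticFunction
  simp [hn]

theorem ch_mul (χ : DirichletCharacter ℂ m) (n k : ℕ) :
    χ ((n * k : ℕ) : ZMod m) = χ (n : ZMod m) * χ (k : ZMod m) := by
  push_cast
  rw [map_mul]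

theorem twist (χ ψ : DirichletCharacter ℂ m) {n : ℕ} (_ : n ≠ 0) :
    (ch ψ * ch (χ * ψ)) n = ψ (n : ZMod m) * χ.zetaMul n := by
  unfold DirichletCharacter.zetaMul
  rw [mul_apply, mul_apply, Finset.mul_sum]
  refine Finset.sum_congr rfl fun x hx => ?_
  rw [Nat.mem_divisorsAntidiagonal] at hx
  have h1 : x.1 ≠ 0 := fun h => hx.2 (by rw [← hx.1, h, zero_mul])
  have h2 : x.2 ≠ 0 := fun h => hx.2 (by rw [← hx.1, h, mul_zero])
  have h3 : ψ (n : ZMod m) = ψ (x.1 : ZMod m) * ψ (x.2 : ZMod m) := by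
    rw [← hx.1, ch_mul]
  rw [ch_apply ψ h1, ch_apply (χ * ψ) h2, h3, MulChar.mul_apply]
  have h4 : ((zeta : ArithmeticFunction ℕ) : ArithmeticFunction ℂ) x.1 = 1 := by
    rw [natCoe_apply, zeta_apply_ne h1, Nat.cast_one]
  have h5 : (toArithmeticFunction (χ ·) : ArithmeticFunction ℂ) x.2 = χ (x.2 : ZMod m) :=
    ch_apply χ h2
  rw [h4, h5]
  ring

theorem pow_case {χ ψ : DirichletCharacter ℂ m} (hχ : χ ^ 2 = 1) {p : ℕ} (hp : p.Prime)
    (h : ∀ j, 0 ≤ ψ ((p ^ j : ℕ) : ZMod m) * χ.zetaMul (p ^ j)) (k : ℕ) :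
    0 ≤ four χ ψ (p ^ k) := by
  unfold four
  rw [mul_apply]
  refine Finset.sum_nonneg fun x hx => ?_
  rw [Nat.mem_divisorsAntidiagonal] at hx
  obtain ⟨i, -, hi⟩ := (Nat.dvd_prime_pow hp).1 (Dvd.intro _ hx.1)
  obtain ⟨j, -, hj⟩ := (Nat.dvd_prime_pow hp).1 (Dvd.intro_left _ hx.1)
  rw [hi, hj, twist χ ψ (pow_ne_zero _ hp.ne_zero)]
  exact mul_nonneg (DirichletCharacter.zetaMul_nonneg hχ _) (h j)

theorem zm_pow (χ : DirichletCharacter ℂ m) {p : ℕ} (hp : p.Prime) (k : ℕ) :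
    χ.zetaMul (p ^ k) = ∑ i ∈ range (k + 1), χ (p : ZMod m) ^ i := by
  unfold DirichletCharacter.zetaMul
  rw [coe_zeta_mul_apply, Nat.sum_divisors_prime_pow hp]
  refine Finset.sum_congr rfl fun i _ => ?_
  have h5 : (toArithmeticFunction (χ ·) : ArithmeticFunction ℂ) (p ^ i) =
      χ ((p ^ i : ℕ) : ZMod m) := ch_apply χ (pow_ne_zero _ hp.ne_zero)
  rw [h5]
  push_cast
  rw [map_pow]

theorem ch_pow (χ : DirichletCharacter ℂ m) (p k : ℕ) :
    χ ((p ^ k : ℕ) : ZMod m) = χ (p : ZMod m) ^ k := by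
  push_cast
  rw [map_pow]

theorem four_pow_nonneg {χ ψ : DirichletCharacter ℂ m} (hχ : χ ^ 2 = 1) (hψ : ψ ^ 2 = 1) {p : ℕ}
    (hp : p.Prime) (k : ℕ) : 0 ≤ four χ ψ (p ^ k) := by
  have key : ∀ {χ ψ : DirichletCharacter ℂ m} (_ : χ ^ 2 = 1), 0 ≤ ψ (p : ZMod m) →
      ∀ k, 0 ≤ four χ ψ (p ^ k) := by
    intro χ ψ hχ h k
    refine pow_case hχ hp (fun j => ?_) k
    rw [ch_pow]
    exact mul_nonneg (pow_nonneg h _) (DirichletCharacter.zetaMul_nonneg hχ _)
  rcases MulChar.isQuadratic_iff_sq_eq_one.mpr hψ p with h | h | h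
  · exact key hχ (by rw [h]) k
  · exact key hχ (by rw [h]; exact zero_le_one) k
  · rcases MulChar.isQuadratic_iff_sq_eq_one.mpr hχ p with h' | h' | h'
    · rw [four_symm]
      exact key hψ (by rw [h']) k
    · rw [four_symm]
      exact key hψ (by rw [h']; exact zero_le_one) k
    · refine pow_case hχ hp (fun j => ?_) k
      rw [ch_pow, h, zm_pow χ hp, h', neg_one_geom_sum]
      split_ifs with hj
      · rw [mul_zero]
      · rw [mul_one]
        have : Even j := by
          by_contra hj'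
          exact hj (Nat.not_even_iff_odd.1 hj').add_one
        rw [this.neg_one_pow]
        exact zero_le_one

theorem ch_mult (χ : DirichletCharacter ℂ m) : (ch χ).IsMultiplicative :=
  DirichletCharacter.isMultiplicative_toArithmeticFunction χ

theorem four_mult (χ ψ : DirichletCharacter ℂ m) : (four χ ψ).IsMultiplicative :=
  (DirichletCharacter.isMultiplicative_zetaMul χ).mul ((ch_mult ψ).mul (ch_mult (χ * ψ)))

theorem four_nonneg {χ ψ : DirichletCharacter ℂ m} (hχ : χ ^ 2 = 1) (hψ : ψ ^ 2 = 1) (n : ℕ) :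
    0 ≤ four χ ψ n := by
  rcases eq_or_ne n 0 with rfl | hn
  · simp only [ArithmeticFunction.map_zero, le_refl]
  · simpa only [(four_mult χ ψ).multiplicative_factorization _ hn] using!
      Finset.prod_nonneg
        fun p hp ↦ four_pow_nonneg hχ hψ (Nat.prime_of_mem_primeFactors hp) _

theorem four_one (χ ψ : DirichletCharacter ℂ m) : four χ ψ 1 = 1 := (four_mult χ ψ).1

theorem ch_summable (χ : DirichletCharacter ℂ m) {s : ℂ} (hs : 1 < s.re) :
    LSeriesSummable (ch χ ·) s := by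
  refine LSeriesSummable_of_bounded_of_one_lt_re (m := 1) (fun n hn ↦ ?_) hs
  rw [ch_apply χ hn]
  exact χ.norm_le_one _

theorem ch_LSeries (χ : DirichletCharacter ℂ m) (s : ℂ) :
    LSeries (ch χ ·) s = LSeries (χ ·) s :=
  LSeries_congr (fun hn => ch_apply χ hn) s

theorem four_summable (χ ψ : DirichletCharacter ℂ m) {s : ℂ} (hs : 1 < s.re) :
    LSeriesSummable (four χ ψ ·) s :=
  LSeriesSummable_mul (DirichletCharacter.LSeriesSummable_zetaMul χ hs)
    (LSeriesSummable_mul (ch_summable ψ hs) (ch_summable (χ * ψ) hs))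

theorem four_abs (χ ψ : DirichletCharacter ℂ m) :
    LSeries.abscissaOfAbsConv (four χ ψ ·) < ((2 : ℝ) : EReal) := by
  have h := (four_summable χ ψ (s := ((3 / 2 : ℝ) : ℂ)) (by
    rw [Complex.ofReal_re]; norm_num)).abscissaOfAbsConv_le
  refine h.trans_lt ?_
  rw [Complex.ofReal_re]
  exact_mod_cast (by norm_num : (3 / 2 : ℝ) < 2)

theorem four_LSeries [NeZero m] (χ ψ : DirichletCharacter ℂ m) {s : ℂ} (hs : 1 < s.re) :
    LSeries (four χ ψ ·) s = riemannZeta s * DirichletCharacter.LFunction χ s *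
      DirichletCharacter.LFunction ψ s * DirichletCharacter.LFunction (χ * ψ) s := by
  have h1 : LSeries (four χ ψ ·) s = LSeries (χ.zetaMul ·) s *
      LSeries ((ch ψ * ch (χ * ψ) : ArithmeticFunction ℂ) ·) s :=
    LSeries_mul' (DirichletCharacter.LSeriesSummable_zetaMul χ hs)
      (LSeriesSummable_mul (ch_summable ψ hs) (ch_summable (χ * ψ) hs))
  have h2 : LSeries ((ch ψ * ch (χ * ψ) : ArithmeticFunction ℂ) ·) s =
      LSeries (ch ψ ·) s * LSeries (ch (χ * ψ) ·) s :=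
    LSeries_mul' (ch_summable ψ hs) (ch_summable (χ * ψ) hs)
  have h3 : LSeries (χ.zetaMul ·) s = LSeries (((zeta : ArithmeticFunction ℕ) :
      ArithmeticFunction ℂ) ·) s * LSeries (ch χ ·) s :=
    LSeries_mul' (LSeriesSummable_zeta_iff.mpr hs) (ch_summable χ hs)
  have h4 : LSeries (((zeta : ArithmeticFunction ℕ) : ArithmeticFunction ℂ) ·) s =
      riemannZeta s := by
    rw [← LSeries_zeta_eq_riemannZeta hs]
    exact LSeries_congr (fun _ => natCoe_apply) s
  rw [h1, h2, h3, h4, ch_LSeries, ch_LSeries, ch_LSeries,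
    DirichletCharacter.LFunction_eq_LSeries χ hs, DirichletCharacter.LFunction_eq_LSeries ψ hs,
    DirichletCharacter.LFunction_eq_LSeries (χ * ψ) hs]
  ring

end Pool.Agent.SIE
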