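import Pool.Agent.Lib_helper98.GAF.Lgr
import Pool.Agent.Lib_helper62.SIE.A
import Pool.Agent.Lib_helper62.SIE.B

/-!
# Siegel's theorem, part C: bounds near `1` and Estermann's inequality for two quadratic characters
-/

set_option autoImplicit false

namespace Pool.Agent.SIE

open Complex Metric Filter Finset MeasureTheory
open Pool.Agent.GA

theorem sc_S {q : ℕ} [NeZero q] {χ : DirichletCharacter ℂ q} (hχ : χ ≠ 1) {δ : ℝ} (h0 : 0 ≤ δ)
    (h1 : δ ≤ 1) {t : ℝ} (ht : 1 < t) :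
    ‖∑ k ∈ Icc 1 ⌊t⌋₊, χ (k : ZMod q)‖ ≤ t ^ (1 - δ) * (q : ℝ) ^ δ := by
  set x : ℝ := ‖∑ k ∈ Icc 1 ⌊t⌋₊, χ (k : ZMod q)‖ with hx
  have hx0 : 0 ≤ x := norm_nonneg _
  have hxq : x ≤ q := lgr_Icc χ hχ _
  have hxt : x ≤ t := by
    calc x ≤ ∑ k ∈ Icc 1 ⌊t⌋₊, ‖χ (k : ZMod q)‖ := norm_sum_le _ _
      _ ≤ ∑ k ∈ Icc 1 ⌊t⌋₊, (1 : ℝ) := sum_le_sum fun k _ => DirichletCharacter.norm_le_one _ _
      _ = (⌊t⌋₊ : ℝ) := by simp
      _ ≤ t := Nat.floor_le (by linarith)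
  calc x = x ^ (1 - δ) * x ^ δ := by
        rw [← Real.rpow_add' hx0 (by norm_num)]
        norm_num
    _ ≤ t ^ (1 - δ) * (q : ℝ) ^ δ := by
        refine mul_le_mul (Real.rpow_le_rpow hx0 hxt (by linarith)) (Real.rpow_le_rpow hx0 hxq h0)
          (Real.rpow_nonneg hx0 _) (Real.rpow_nonneg (by linarith) _)

theorem sc_bound {q : ℕ} [NeZero q] {χ : DirichletCharacter ℂ q} (hχ : χ ≠ 1) {δ : ℝ} (h0 : 0 < δ)
    (h1 : δ ≤ 1) {s : ℂ} (hs : 1 - δ / 2 ≤ s.re) :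
    ‖LF χ s‖ ≤ ‖s‖ * (2 / δ * (q : ℝ) ^ δ) := by
  have hs0 : 0 < s.re := by linarith
  rw [LF_eq_mellin hχ hs0, lgrS_mellin, norm_mul]
  refine mul_le_mul_of_nonneg_left ?_ (norm_nonneg _)
  refine (norm_integral_le_integral_norm _).trans ?_
  have hexp : 1 < s.re + δ := by linarith
  have h2 : ∫ t in Set.Ioi (1 : ℝ), (q : ℝ) ^ δ * t ^ (-(s.re + δ)) =
      (q : ℝ) ^ δ * (1 / (s.re + δ - 1)) := by
    rw [integral_const_mul, integral_Ioi_rpow_of_lt (by linarith) zero_lt_one]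
    rw [Real.one_rpow]
    have h3 : s.re + δ - 1 ≠ 0 := by linarith
    have h4 : -(s.re + δ) + 1 ≠ 0 := by
      intro h
      apply h3
      linarith
    field_simp
    ring
  have h5 : ∫ t in Set.Ioi (1 : ℝ), (q : ℝ) ^ δ * t ^ (-(s.re + δ)) ≤ 2 / δ * (q : ℝ) ^ δ := by
    rw [h2, mul_comm]
    refine mul_le_mul_of_nonneg_right ?_ (by positivity)
    rw [div_le_div_iff₀ (by linarith) h0]
    linarith
  refine le_trans ?_ h5
  have hint : IntegrableOn (fun t : ℝ => (q : ℝ) ^ δ * t ^ (-(s.re + δ))) (Set.Ioi 1) :=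
    (integrableOn_Ioi_rpow_of_lt (by linarith) zero_lt_one).const_mul _
  refine integral_mono_of_nonneg (Eventually.of_forall fun t => norm_nonneg _) hint ?_
  refine (ae_restrict_mem measurableSet_Ioi).mono fun t ht => ?_
  have ht1 : (1 : ℝ) < t := ht
  have ht0 : (0 : ℝ) < t := lt_trans zero_lt_one ht1
  show ‖_‖ ≤ _
  rw [norm_mul, Complex.norm_cpow_eq_rpow_re_of_pos ht0]
  simp only [neg_re, add_re, one_re]
  calc ‖∑ k ∈ Icc 1 ⌊t⌋₊, χ (k : ZMod q)‖ * t ^ (-(s.re + 1))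
      ≤ (t ^ (1 - δ) * (q : ℝ) ^ δ) * t ^ (-(s.re + 1)) :=
        mul_le_mul_of_nonneg_right (sc_S hχ h0.le h1 ht1) (Real.rpow_nonneg ht0.le _)
    _ = (q : ℝ) ^ δ * (t ^ (1 - δ) * t ^ (-(s.re + 1))) := by ring
    _ = (q : ℝ) ^ δ * t ^ (-(s.re + δ)) := by
        rw [← Real.rpow_add ht0]
        congr 2
        ring

theorem sc_one {q : ℕ} [NeZero q] {χ : DirichletCharacter ℂ q} (hχ : χ ≠ 1) {δ : ℝ} (h0 : 0 < δ)
    (h1 : δ ≤ 1) : ‖LF χ 1‖ ≤ 2 / δ * (q : ℝ) ^ δ := by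
  have h := sc_bound hχ h0 h1 (s := 1) (by rw [one_re]; linarith)
  rwa [norm_one, one_mul] at h

theorem sc_zero {q : ℕ} [NeZero q] {χ : DirichletCharacter ℂ q} (hχ : χ ≠ 1) {δ : ℝ} (h0 : 0 < δ)
    (h1 : δ ≤ 1) {β : ℝ} (hβ : LF χ (β : ℂ) = 0) (hβ1 : β ≤ 1) (hβ2 : 1 - δ / 4 ≤ β) :
    ‖LF χ 1‖ ≤ (1 - β) * (16 / δ ^ 2 * (q : ℝ) ^ δ) := by
  have hq : (0 : ℝ) ≤ (q : ℝ) ^ δ := by positivity
  have hderiv : ∀ x ∈ closedBall (1 : ℂ) (1 - β), ‖deriv (LF χ) x‖ ≤ 16 / δ ^ 2 * (q : ℝ) ^ δ := by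
    intro x hx
    rw [mem_closedBall, dist_eq_norm] at hx
    have hb : ∀ w ∈ sphere x (δ / 4), ‖LF χ w‖ ≤ 2 * (2 / δ * (q : ℝ) ^ δ) := by
      intro w hw
      rw [mem_sphere, dist_eq_norm] at hw
      have hw1 : ‖w - 1‖ ≤ δ / 2 := by
        calc ‖w - 1‖ = ‖(w - x) + (x - 1)‖ := by ring_nf
          _ ≤ ‖w - x‖ + ‖x - 1‖ := norm_add_le _ _
          _ ≤ δ / 2 := by linarith
      have hre : |(w - 1).re| ≤ δ / 2 := (Complex.abs_re_le_norm _).trans hw1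
      simp only [sub_re, one_re] at hre
      have h2 := (abs_le.1 hre).1
      have hn : ‖w‖ ≤ 2 := by
        calc ‖w‖ = ‖(w - 1) + 1‖ := by ring_nf
          _ ≤ ‖w - 1‖ + ‖(1 : ℂ)‖ := norm_add_le _ _
          _ ≤ 2 := by rw [norm_one]; linarith
      refine (sc_bound hχ h0 h1 (by linarith)).trans ?_
      exact mul_le_mul_of_nonneg_right hn (by positivity)
    have h2 := Complex.norm_deriv_le_of_forall_mem_sphere_norm_le (by positivity : (0 : ℝ) < δ / 4)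
      (LF_diff hχ).diffContOnCl hb
    refine h2.trans (le_of_eq ?_)
    field_simp
    ring
  have hβm : (β : ℂ) ∈ closedBall (1 : ℂ) (1 - β) := by
    rw [mem_closedBall, dist_eq_norm, ← Complex.ofReal_one, ← Complex.ofReal_sub,
      Complex.norm_real, Real.norm_eq_abs, abs_sub_comm, abs_of_nonneg (by linarith)]
  have h1m : (1 : ℂ) ∈ closedBall (1 : ℂ) (1 - β) := mem_closedBall_self (by linarith)
  have h3 := (convex_closedBall (1 : ℂ) (1 - β)).norm_image_sub_le_of_norm_deriv_le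
    (fun x _ => (LF_diff hχ).differentiableAt) hderiv hβm h1m
  rw [hβ, sub_zero, ← Complex.ofReal_one, ← Complex.ofReal_sub, Complex.norm_real,
    Real.norm_eq_abs, abs_of_nonneg (by linarith : 0 ≤ 1 - β)] at h3
  rw [Complex.ofReal_one] at h3
  linarith

/-- `(s - 1) ζ(s)` -/
noncomputable def Zf : ℂ → ℂ := DirichletCharacter.LFunctionTrivChar₁ 1

theorem Zf_diff : Differentiable ℂ Zf := DirichletCharacter.differentiable_LFunctionTrivChar₁ 1

theorem Zf_one : Zf 1 = 1 := by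
  unfold Zf DirichletCharacter.LFunctionTrivChar₁
  simp

theorem Zf_eq {s : ℂ} (hs : s ≠ 1) : Zf s = (s - 1) * riemannZeta s := by
  unfold Zf DirichletCharacter.LFunctionTrivChar₁
  rw [Function.update_of_ne hs, DirichletCharacter.LFunctionTrivChar,
    DirichletCharacter.LFunction_modOne_eq]

theorem Zf_bdd : ∃ C : ℝ, 1 ≤ C ∧ ∀ s ∈ closedBall (2 : ℂ) (4 / 3), ‖Zf s‖ ≤ C := by
  obtain ⟨C, hC⟩ := (isCompact_closedBall (2 : ℂ) (4 / 3)).exists_bound_of_continuousOn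
    Zf_diff.continuous.continuousOn
  exact ⟨max C 1, le_max_right _ _, fun s hs => (hC s hs).trans (le_max_left _ _)⟩

/-- the choice of the number of coefficients -/
theorem sc_N {M β l : ℝ} (hM : 1 ≤ 32 * M) (hβ : β < 1) (hβ0 : 3 / 4 ≤ β)
    (h : ∀ N : ℕ, 1 ≤ N → 1 - l * (((2 - β) ^ N - 1) / (1 - β)) - 16 * M * (15 / 16) ^ N ≤
      l / (1 - β)) : 1 - β ≤ 4 * |l| * (32 * M) ^ (16 * (1 - β)) := by
  have hM0 : 0 < 32 * M := by linarith
  have hb : 0 < 1 - β := by linarith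
  have hlog : 0 ≤ Real.log (32 * M) := Real.log_nonneg hM
  set N : ℕ := ⌈16 * Real.log (32 * M)⌉₊ + 1 with hN
  have hN1 : 16 * Real.log (32 * M) ≤ N := by
    rw [hN]
    push_cast
    have := Nat.le_ceil (16 * Real.log (32 * M))
    linarith
  have hN2 : (N : ℝ) ≤ 16 * Real.log (32 * M) + 2 := by
    rw [hN]
    push_cast
    have := (Nat.ceil_lt_add_one (by positivity : 0 ≤ 16 * Real.log (32 * M))).le
    linarith
  have h1 := h N (by omega)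
  have h2 : (15 / 16 : ℝ) ^ N ≤ (32 * M)⁻¹ := by
    have h3 : (15 / 16 : ℝ) ≤ Real.exp (-(1 / 16)) := by
      have := Real.add_one_le_exp (-(1 / 16 : ℝ))
      linarith
    calc (15 / 16 : ℝ) ^ N ≤ Real.exp (-(1 / 16)) ^ N := pow_le_pow_left₀ (by norm_num) h3 _
      _ = Real.exp (-(N / 16)) := by
          rw [← Real.exp_nat_mul]
          congr 1
          ring
      _ ≤ Real.exp (-Real.log (32 * M)) := Real.exp_le_exp.mpr (by linarith)
      _ = (32 * M)⁻¹ := by rw [Real.exp_neg, Real.exp_log hM0]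
  have h3 : 16 * M * (15 / 16) ^ N ≤ 1 / 2 := by
    calc 16 * M * (15 / 16) ^ N ≤ 16 * M * (32 * M)⁻¹ :=
          mul_le_mul_of_nonneg_left h2 (by linarith)
      _ = 1 / 2 := by
          have : M ≠ 0 := by
            rintro rfl
            norm_num at hM
          field_simp
          norm_num
  have h4 : 1 / 2 ≤ l * (2 - β) ^ N / (1 - β) := by
    have h5 : l * (2 - β) ^ N / (1 - β) = l / (1 - β) + l * (((2 - β) ^ N - 1) / (1 - β)) := by
      field_simp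
      ring
    linarith
  have h6 : (2 - β) ^ N ≤ 2 * (32 * M) ^ (16 * (1 - β)) := by
    have h7 : 2 - β ≤ Real.exp (1 - β) := by
      have := Real.add_one_le_exp (1 - β)
      linarith
    have h8 : Real.exp (1 / 2) ≤ 2 := by
      have h9 := Real.exp_one_lt_d9
      have h10 : Real.exp (1 / 2) * Real.exp (1 / 2) = Real.exp 1 := by
        rw [← Real.exp_add]
        norm_num
      nlinarith [Real.exp_pos (1 / 2)]
    calc (2 - β) ^ N ≤ Real.exp (1 - β) ^ N := pow_le_pow_left₀ (by linarith) h7 _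
      _ = Real.exp (N * (1 - β)) := by rw [← Real.exp_nat_mul]
      _ ≤ Real.exp (1 / 2 + Real.log (32 * M) * (16 * (1 - β))) := by
          refine Real.exp_le_exp.mpr ?_
          nlinarith
      _ = Real.exp (1 / 2) * (32 * M) ^ (16 * (1 - β)) := by
          rw [Real.exp_add, Real.rpow_def_of_pos hM0]
      _ ≤ 2 * (32 * M) ^ (16 * (1 - β)) :=
          mul_le_mul_of_nonneg_right h8 (Real.rpow_nonneg hM0.le _)
  rw [le_div_iff₀ hb] at h4
  have h7 : l * (2 - β) ^ N ≤ |l| * (2 * (32 * M) ^ (16 * (1 - β))) := by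
    calc l * (2 - β) ^ N ≤ |l| * (2 - β) ^ N :=
          mul_le_mul_of_nonneg_right (le_abs_self l) (pow_nonneg (by linarith) _)
      _ ≤ _ := mul_le_mul_of_nonneg_left h6 (abs_nonneg _)
  linarith

open scoped ComplexOrder in
theorem sc_four : ∃ C : ℝ, 1 ≤ C ∧ ∀ (m : ℕ) [NeZero m] (χ ψ : DirichletCharacter ℂ m),
    χ ^ 2 = 1 → ψ ^ 2 = 1 → χ ≠ 1 → ψ ≠ 1 → χ * ψ ≠ 1 → ∀ β : ℝ, 3 / 4 ≤ β → β < 1 →
      LF χ (β : ℂ) = 0 →
      1 - β ≤ C * (‖LF χ 1‖ * ‖LF ψ 1‖ * ‖LF (χ * ψ) 1‖) * (m : ℝ) ^ (C * (1 - β)) := by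
  obtain ⟨CZ, hCZ1, hCZ⟩ := Zf_bdd
  obtain ⟨CL, hCL1, hCL⟩ := LF_growth
  set M0 : ℝ := 6 * CZ * (CL * (10 / 3)) ^ 3 with hM0def
  have hM01 : 1 ≤ M0 := by
    have h1 : 1 ≤ (CL * (10 / 3)) ^ 3 := one_le_pow₀ (by linarith)
    have h2 : 1 ≤ 6 * CZ := by linarith
    exact one_le_mul_of_one_le_of_one_le h2 h1
  refine ⟨max (4 * (32 * M0) ^ 4) 48, (by norm_num : (1 : ℝ) ≤ 48).trans (le_max_right _ _),
    fun m _ χ ψ hχ hψ hχ1 hψ1 hχψ β hβ0 hβ1 hz => ?_⟩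
  have hm1 : (1 : ℝ) ≤ m := by exact_mod_cast NeZero.one_le
  have hb : 0 < 1 - β := by linarith
  set Q : ℂ → ℂ := fun s => LF χ s * LF ψ s * LF (χ * ψ) s with hQ
  have hQd : Differentiable ℂ Q := ((LF_diff hχ1).mul (LF_diff hψ1)).mul (LF_diff hχψ)
  set P : ℂ → ℂ := fun s => Zf s * Q s with hP
  have hPd : Differentiable ℂ P := Zf_diff.mul hQd
  set G : ℂ → ℂ := dslope P 1 with hG
  have hGd : Differentiable ℂ G := by
    rw [← differentiableOn_univ, hG, Complex.differentiableOn_dslope Filter.univ_mem]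
    exact hPd.differentiableOn
  have hGs : ∀ s : ℂ, s ≠ 1 → G s = (s - 1)⁻¹ * (P s - P 1) := by
    intro s hs
    rw [hG, dslope_of_ne _ hs, slope_def_module, smul_eq_mul]
  have hP1 : P 1 = Q 1 := by
    show Zf 1 * Q 1 = Q 1
    rw [Zf_one, one_mul]
  have hGF : ∀ s : ℂ, 1 < s.re → G s = LSeries (four χ ψ ·) s - Q 1 * (s - 1)⁻¹ := by
    intro s hs
    have hs1 : s ≠ 1 := by
      rintro rfl
      rw [one_re] at hs
      exact lt_irrefl _ hs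
    have hs2 : s - 1 ≠ 0 := sub_ne_zero.2 hs1
    rw [hGs s hs1, hP1, four_LSeries χ ψ hs, ← LF_eq, ← LF_eq, ← LF_eq]
    show (s - 1)⁻¹ * (Zf s * (LF χ s * LF ψ s * LF (χ * ψ) s) - Q 1) = _
    rw [Zf_eq hs1]
    field_simp
  have hbd : ∀ s ∈ closedBall (2 : ℂ) (4 / 3), ‖P s‖ ≤ CZ * (CL * m * (10 / 3)) ^ 3 := by
    intro s hs
    have h1 := hCZ s hs
    rw [mem_closedBall, dist_eq_norm] at hs
    have hre : |(s - 2).re| ≤ 4 / 3 := (Complex.abs_re_le_norm _).trans hs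
    have him : |(s - 2).im| ≤ 4 / 3 := (Complex.abs_im_le_norm _).trans hs
    have e2 : (2 : ℂ).re = 2 := rfl
    have e3 : (2 : ℂ).im = 0 := rfl
    rw [sub_re, e2] at hre
    rw [sub_im, e3, sub_zero] at him
    have hre' := (abs_le.1 hre).1
    have key : ∀ (φ : DirichletCharacter ℂ m), φ ≠ 1 → ‖LF φ s‖ ≤ CL * m * (10 / 3) := by
      intro φ hφ
      refine (hCL m φ hφ s (by linarith)).trans ?_
      exact mul_le_mul_of_nonneg_left (by linarith) (by positivity)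
    show ‖Zf s * (LF χ s * LF ψ s * LF (χ * ψ) s)‖ ≤ _
    rw [norm_mul, norm_mul, norm_mul]
    have k1 := key χ hχ1
    have k2 := key ψ hψ1
    have k3 := key (χ * ψ) hχψ
    calc ‖Zf s‖ * (‖LF χ s‖ * ‖LF ψ s‖ * ‖LF (χ * ψ) s‖)
        ≤ CZ * ((CL * m * (10 / 3)) * (CL * m * (10 / 3)) * (CL * m * (10 / 3))) := by
          gcongr
      _ = _ := by ring
  have h1b : (1 : ℂ) ∈ closedBall (2 : ℂ) (4 / 3) := by
    rw [mem_closedBall, dist_eq_norm]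
    norm_num
  have hM : ∀ s ∈ sphere (2 : ℂ) (4 / 3), ‖G s‖ ≤ M0 * m ^ 3 := by
    intro s hs
    have hsb := sphere_subset_closedBall hs
    rw [mem_sphere, dist_eq_norm] at hs
    have h1 : 1 / 3 ≤ ‖s - 1‖ := by
      have h2 : ‖s - 2‖ ≤ ‖s - 1‖ + ‖(-1 : ℂ)‖ := by
        calc ‖s - 2‖ = ‖(s - 1) + (-1)‖ := by ring_nf
          _ ≤ _ := norm_add_le _ _
      rw [hs, norm_neg, norm_one] at h2
      linarith
    have hs1 : s ≠ 1 := by
      rintro rfl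
      rw [sub_self, norm_zero] at h1
      norm_num at h1
    rw [hGs s hs1, norm_mul, norm_inv]
    have h2 : ‖s - 1‖⁻¹ ≤ 3 := by
      have := inv_anti₀ (by norm_num : (0 : ℝ) < 1 / 3) h1
      norm_num at this
      exact this
    have h3 : ‖P s - P 1‖ ≤ 2 * (CZ * (CL * m * (10 / 3)) ^ 3) := by
      have h4 := norm_sub_le (P s) (P 1)
      have h5 := hbd s hsb
      have h6 := hbd 1 h1b
      linarith
    calc ‖s - 1‖⁻¹ * ‖P s - P 1‖ ≤ 3 * (2 * (CZ * (CL * m * (10 / 3)) ^ 3)) :=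
          mul_le_mul h2 h3 (norm_nonneg _) (by norm_num)
      _ = M0 * m ^ 3 := by rw [hM0def]; ring
  have hGβ : (G β).re = (Q 1).re / (1 - β) := by
    have hne : (β : ℂ) ≠ 1 := by
      intro h
      have : β = 1 := by exact_mod_cast h
      linarith
    have hPβ : P β = 0 := by
      show Zf β * (LF χ β * LF ψ β * LF (χ * ψ) β) = 0
      rw [hz]
      ring
    have hcast : ((β : ℂ) - 1)⁻¹ = (((β - 1)⁻¹ : ℝ) : ℂ) := by push_cast; rfl
    rw [hGs _ hne, hPβ, hP1, zero_sub, hcast, Complex.re_ofReal_mul, Complex.neg_re]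
    have h1 : (β - 1) ≠ 0 := by linarith
    have h2 : (1 - β) ≠ 0 := hb.ne'
    field_simp
    ring
  have hmain : ∀ N : ℕ, 1 ≤ N → 1 - (Q 1).re * (((2 - β) ^ N - 1) / (1 - β)) -
      16 * (M0 * m ^ 3) * (15 / 16) ^ N ≤ (Q 1).re / (1 - β) := by
    intro N hN
    rw [← hGβ]
    exact sa_main (a := (four χ ψ ·)) (fun n => four_nonneg hχ hψ n) (four_one χ ψ).ge
      (four_abs χ ψ) hGd hGF hM hβ0 hβ1 N hN
  have hm3 : (1 : ℝ) ≤ (m : ℝ) ^ 3 := one_le_pow₀ hm1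
  have hM1 : 1 ≤ M0 * (m : ℝ) ^ 3 := one_le_mul_of_one_le_of_one_le hM01 hm3
  have hfin := sc_N (M := M0 * m ^ 3) (by linarith) hβ1 hβ0 hmain
  have hQn : |(Q 1).re| ≤ ‖LF χ 1‖ * ‖LF ψ 1‖ * ‖LF (χ * ψ) 1‖ := by
    refine (Complex.abs_re_le_norm _).trans (le_of_eq ?_)
    show ‖LF χ 1 * LF ψ 1 * LF (χ * ψ) 1‖ = _
    rw [norm_mul, norm_mul]
  have hpow : (32 * (M0 * (m : ℝ) ^ 3)) ^ (16 * (1 - β)) ≤
      (32 * M0) ^ 4 * (m : ℝ) ^ (max (4 * (32 * M0) ^ 4) 48 * (1 - β)) := by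
    have e1 : 32 * (M0 * (m : ℝ) ^ 3) = (32 * M0) * (m : ℝ) ^ 3 := by ring
    rw [e1, Real.mul_rpow (by positivity) (by positivity)]
    refine mul_le_mul ?_ ?_ (by positivity) (by positivity)
    · have h1 : (1 : ℝ) ≤ 32 * M0 := by linarith
      calc (32 * M0) ^ (16 * (1 - β)) ≤ (32 * M0) ^ (4 : ℝ) :=
            Real.rpow_le_rpow_of_exponent_le h1 (by linarith)
        _ = (32 * M0) ^ 4 := by exact_mod_cast Real.rpow_natCast (32 * M0) 4
    · have e2 : ((m : ℝ) ^ 3) = (m : ℝ) ^ (3 : ℝ) := by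
        exact_mod_cast (Real.rpow_natCast (m : ℝ) 3).symm
      rw [e2, ← Real.rpow_mul (by positivity)]
      refine Real.rpow_le_rpow_of_exponent_le hm1 ?_
      have h1 : (48 : ℝ) ≤ max (4 * (32 * M0) ^ 4) 48 := le_max_right _ _
      nlinarith
  set X : ℝ := ‖LF χ 1‖ * ‖LF ψ 1‖ * ‖LF (χ * ψ) 1‖ with hX
  have hX0 : 0 ≤ X := by positivity
  set Y : ℝ := (m : ℝ) ^ (max (4 * (32 * M0) ^ 4) 48 * (1 - β)) with hY
  have hY0 : 0 ≤ Y := by positivity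
  calc 1 - β ≤ 4 * |(Q 1).re| * (32 * (M0 * (m : ℝ) ^ 3)) ^ (16 * (1 - β)) := hfin
    _ ≤ 4 * X * ((32 * M0) ^ 4 * Y) := by
        refine mul_le_mul ?_ hpow (by positivity) (by positivity)
        linarith
    _ = (4 * (32 * M0) ^ 4) * X * Y := by ring
    _ ≤ max (4 * (32 * M0) ^ 4) 48 * X * Y := by
        gcongr
        exact le_max_left _ _

end Pool.Agent.SIE
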