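import Pool.Agent.Lib_helper98.GAF.Z4
import Pool.Agent.Lib_helper15.EXCF.FX
import Pool.Agent.Lib_helper62.SIE.C

/-!
# Siegel's theorem
-/

set_option autoImplicit false

namespace Pool.Agent.SIE

open Complex
open Pool.Agent.GA
open Pool.Agent.LK (PQ)

theorem siegel (ε : ℝ) (hε : 0 < ε) : ∃ c : ℝ, 0 < c ∧ ∀ (q : ℕ) [NeZero q]
    (χ : DirichletCharacter ℂ q), Pool.Agent.LK.PQ χ → ∀ β : ℝ,
    DirichletCharacter.LFunction χ (β : ℂ) = 0 → β ≤ 1 → c / (q : ℝ) ^ ε ≤ 1 - β := by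
  obtain ⟨C, hC1, hC⟩ := sc_four
  obtain ⟨c0, hc0, hlow⟩ := Pool.Agent.EXC.xlower_pr
  set δ : ℝ := min (ε / 6) 1 with hδ
  have hδ0 : 0 < δ := lt_min (by positivity) one_pos
  have hδ1 : δ ≤ 1 := min_le_right _ _
  have hδε : 6 * δ ≤ ε := by
    have := min_le_left (ε / 6) 1
    linarith
  have hC0 : 0 < C := by linarith
  set η : ℝ := min (1 / 4) (ε / (2 * C)) with hη
  have hη0 : 0 < η := lt_min (by norm_num) (by positivity)
  have hη4 : η ≤ 1 / 4 := min_le_left _ _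
  have hηC : C * η ≤ ε / 2 := by
    have := min_le_right (1 / 4) (ε / (2 * C))
    rw [← hη, le_div_iff₀ (by positivity)] at this
    linarith
  have hpow1 : ∀ (q : ℕ) [NeZero q], (1 : ℝ) ≤ (q : ℝ) ^ ε := by
    intro q _
    exact Real.one_le_rpow (by exact_mod_cast NeZero.one_le) hε.le
  have hdrop : ∀ (q : ℕ) [NeZero q] (c x : ℝ), 0 < c → c ≤ x → c / (q : ℝ) ^ ε ≤ x := by
    intro q _ c x hc hx
    refine le_trans ?_ hx
    exact div_le_self hc.le (hpow1 q)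
  by_cases hA : ∀ (q : ℕ) (_ : NeZero q) (χ : DirichletCharacter ℂ q), PQ χ → ∀ β : ℝ,
      DirichletCharacter.LFunction χ (β : ℂ) = 0 → β ≤ 1 → β ≤ 1 - η
  · refine ⟨η, hη0, fun q _ χ hχ β hβ hβ1 => hdrop q η _ hη0 ?_⟩
    linarith [hA q inferInstance χ hχ β hβ hβ1]
  push Not at hA
  obtain ⟨q1, hq1, χ1, hχ1, β1, hβ1, hβ11, hβ1η⟩ := hA
  have hβ1lt : β1 < 1 := by
    rcases hβ11.lt_or_eq with h | h
    · exact h
    · exfalso
      rw [h, ofReal_one, ← LF_eq] at hβ1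
      exact LF_ne_zero hχ1.ne (by rw [one_re]) hβ1
  have hq1R : (1 : ℝ) ≤ q1 := by exact_mod_cast NeZero.one_le
  set c3 : ℝ := (1 - β1) / (C * (2 / δ) ^ 2 * (16 / δ ^ 2) * (q1 : ℝ) ^ ε) with hc3
  have hc30 : 0 < c3 := by
    refine div_pos (by linarith) ?_
    positivity
  refine ⟨min (min (c0 / (q1 : ℝ) ^ 2) (δ / 4)) c3,
    lt_min (lt_min (by positivity) (by positivity)) hc30, fun q _ χ hχ β hβ hβ1' => ?_⟩
  set c : ℝ := min (min (c0 / (q1 : ℝ) ^ 2) (δ / 4)) c3 with hc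
  have hcpos : 0 < c := lt_min (lt_min (by positivity) (by positivity)) hc30
  have hca : c ≤ c0 / (q1 : ℝ) ^ 2 := (min_le_left _ _).trans (min_le_left _ _)
  have hcb : c ≤ δ / 4 := (min_le_left _ _).trans (min_le_right _ _)
  have hcc : c ≤ c3 := min_le_right _ _
  have hqR : (1 : ℝ) ≤ q := by exact_mod_cast NeZero.one_le
  by_cases hq : q ≤ q1
  · refine hdrop q c _ hcpos (hca.trans ?_)
    refine le_trans ?_ (hlow q χ hχ β hβ hβ1')
    have hqq : (q : ℝ) ≤ q1 := by exact_mod_cast hq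
    gcongr
  push Not at hq
  by_cases hβδ : β < 1 - δ / 4
  · exact hdrop q c _ hcpos (by linarith)
  push Not at hβδ
  have : NeZero (q1 * q) := ⟨Nat.mul_ne_zero (NeZero.ne q1) (NeZero.ne q)⟩
  set m : ℕ := q1 * q with hm
  set ψ1 := DirichletCharacter.changeLevel (q1.dvd_mul_right q) χ1 with hψ1
  set ψ2 := DirichletCharacter.changeLevel (q.dvd_mul_left q1) χ with hψ2
  have hψ12 : ψ1 ^ 2 = 1 := by rw [hψ1, ← map_pow, hχ1.sq, map_one]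
  have hψ22 : ψ2 ^ 2 = 1 := by rw [hψ2, ← map_pow, hχ.sq, map_one]
  have hψ11 : ψ1 ≠ 1 := fun h => hχ1.ne ((DirichletCharacter.changeLevel_eq_one_iff _).1 h)
  have hψ21 : ψ2 ≠ 1 := fun h => hχ.ne ((DirichletCharacter.changeLevel_eq_one_iff _).1 h)
  have hψ : ψ1 * ψ2 ≠ 1 := by
    intro h
    apply z4_lift_ne hq.ne hχ1.prim hχ.prim
    have h1 : ψ1 * ψ2 = ψ2 * ψ2 := by rw [h, ← sq, hψ22]
    exact mul_right_cancel h1
  have hz1 : LF ψ1 (β1 : ℂ) = 0 := by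
    rw [LF_eq, hψ1, DirichletCharacter.LFunction_changeLevel _ χ1 (Or.inl hχ1.ne), hβ1, zero_mul]
  have hz2 : LF ψ2 (β : ℂ) = 0 := by
    rw [LF_eq, hψ2, DirichletCharacter.LFunction_changeLevel _ χ (Or.inl hχ.ne), hβ, zero_mul]
  have hmain := hC m ψ1 ψ2 hψ12 hψ22 hψ11 hψ21 hψ β1 (by linarith) hβ1lt hz1
  have k1 := sc_one hψ11 hδ0 hδ1
  have k2 := sc_zero hψ21 hδ0 hδ1 hz2 hβ1' hβδ
  have k3 := sc_one hψ hδ0 hδ1
  have hmR : (1 : ℝ) ≤ m := by exact_mod_cast NeZero.one_le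
  have hm0 : (0 : ℝ) < m := by linarith
  set A : ℝ := (m : ℝ) ^ δ with hA
  have hA0 : 0 < A := Real.rpow_pos_of_pos hm0 _
  have hb0 : 0 ≤ 1 - β := by linarith
  have hX : ‖LF ψ1 1‖ * ‖LF ψ2 1‖ * ‖LF (ψ1 * ψ2) 1‖ ≤
      (2 / δ) ^ 2 * (16 / δ ^ 2) * (1 - β) * (A * A * A) := by
    calc ‖LF ψ1 1‖ * ‖LF ψ2 1‖ * ‖LF (ψ1 * ψ2) 1‖
        ≤ (2 / δ * A) * ((1 - β) * (16 / δ ^ 2 * A)) * (2 / δ * A) := by
          refine mul_le_mul (mul_le_mul k1 k2 (norm_nonneg _) (by positivity)) k3 (norm_nonneg _) ?_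
          exact mul_nonneg (by positivity) (mul_nonneg hb0 (by positivity))
      _ = _ := by ring
  have hA3 : A * A * A * (m : ℝ) ^ (C * (1 - β1)) ≤ (m : ℝ) ^ ε := by
    rw [hA, ← Real.rpow_add hm0, ← Real.rpow_add hm0, ← Real.rpow_add hm0]
    refine Real.rpow_le_rpow_of_exponent_le hmR ?_
    have h1 : C * (1 - β1) ≤ C * η := mul_le_mul_of_nonneg_left (by linarith) hC0.le
    linarith
  have hmε : (m : ℝ) ^ ε = (q1 : ℝ) ^ ε * (q : ℝ) ^ ε := by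
    rw [hm]
    push_cast
    exact Real.mul_rpow (by positivity) (by positivity)
  have hB0 : 0 < (m : ℝ) ^ (C * (1 - β1)) := Real.rpow_pos_of_pos hm0 _
  have hfin : 1 - β1 ≤ C * (2 / δ) ^ 2 * (16 / δ ^ 2) * (q1 : ℝ) ^ ε * ((1 - β) * (q : ℝ) ^ ε) := by
    calc 1 - β1 ≤ C * (‖LF ψ1 1‖ * ‖LF ψ2 1‖ * ‖LF (ψ1 * ψ2) 1‖) *
          (m : ℝ) ^ (C * (1 - β1)) := hmain
      _ ≤ C * ((2 / δ) ^ 2 * (16 / δ ^ 2) * (1 - β) * (A * A * A)) *
          (m : ℝ) ^ (C * (1 - β1)) := by gcongr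
      _ = C * (2 / δ) ^ 2 * (16 / δ ^ 2) * (1 - β) *
          (A * A * A * (m : ℝ) ^ (C * (1 - β1))) := by ring
      _ ≤ C * (2 / δ) ^ 2 * (16 / δ ^ 2) * (1 - β) * (m : ℝ) ^ ε := by
          refine mul_le_mul_of_nonneg_left hA3 ?_
          exact mul_nonneg (by positivity) hb0
      _ = _ := by rw [hmε]; ring
  have hqε : 0 < (q : ℝ) ^ ε := by positivity
  rw [div_le_iff₀ hqε]
  refine hcc.trans ?_
  rw [hc3, div_le_iff₀ (by positivity)]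
  calc 1 - β1 ≤ _ := hfin
    _ = _ := by ring

end Pool.Agent.SIE
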